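import Mathlib

/-!
MP_f5f603_al: a finite connected quandle which is not involutory, with two different good
involutions.

Let `K` be a perfect group with a central element `ζ ≠ 1`, `ζ ^ 2 = 1`, and let `c` be an element of
`K` which is not central and conjugate to `c⁻¹` (here `K = SL (2, 5)`, `ζ = -1`, `c` of order four).
In the wreath product `G = (K × K) ⋊ ⟨τ⟩` the elements `(u, v) τ` with `u v` in the conjugacy class of
`c` form a conjugacy class `X`. Since `ζ u * ζ v = u v` and `((u, v) τ)⁻¹ = (v⁻¹, u⁻¹) τ`, the class is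
stable under the multiplication by the central element `(ζ, ζ)` and under the inversion. So
`x ↦ x⁻¹` and `x ↦ (ζ, ζ) x⁻¹` are two good involutions of the conjugation quandle on `X`. The quotients of
the elements of `X` generate `K × K` as `K` is perfect, so the quandle is connected. The square
`(c, c)` of `(1, c) τ` is not central. (The same construction with `K = SL (2, 3)` has a connected
component with 48 elements with the same properties.)

helper802
-/

set_option autoImplicit false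

namespace Pool.Agent.Results.MP_f5f603_al.TwoGoodInvolutions

open scoped commutatorElement

/-- `R` is a quandle with the operation `op x y = x * y`. -/
structure IsQuandle {R : Type} (op : R → R → R) : Prop where
  idem : ∀ x, op x x = x
  bij : ∀ y, Function.Bijective fun x => op x y
  dist : ∀ x y z, op (op x y) z = op (op x z) (op y z)

/-- The group generated by the right translations `w ↦ w * z` is transitive on `R`. -/
def IsConnected {R : Type} (op : R → R → R) : Prop :=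
  ∀ x y : R, ∃ σ ∈ Subgroup.closure {s : Equiv.Perm R | ∃ z, ∀ w, s w = op w z}, σ x = y

/-- The right translations are involutions: `(x * y) * y = x`. -/
def IsInvolutory {R : Type} (op : R → R → R) : Prop :=
  ∀ x y : R, op (op x y) y = x

/-- `ρ` is a good involution: `ρ ∘ ρ = id`, `ρ (x * y) = ρ x * y`, and the right translation by
`ρ y` is the inverse of the right translation by `y`. -/
structure IsGoodInvolution {R : Type} (op : R → R → R) (ρ : R → R) : Prop where
  invol : ∀ x, ρ (ρ x) = x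
  equivariant : ∀ x y, ρ (op x y) = op (ρ x) y
  inverse : ∀ x y, op (op x (ρ y)) y = x

section general

variable {K : Type} [Group K] {c : K}

/-- The elements `(u, v) τ` of the wreath product with `u v` conjugate to `c`. -/
def Cls (c : K) : Type := {p : K × K // IsConj c (p.1 * p.2)}

/-- Conjugation in the wreath product. -/
def opn (x y : Cls c) : Cls c :=
  ⟨(y.1.2⁻¹ * x.1.2 * y.1.1, y.1.1⁻¹ * x.1.1 * y.1.2), by
    have h1 : IsConj (x.1.1 * x.1.2)
        (y.1.2⁻¹ * x.1.2 * y.1.1 * (y.1.1⁻¹ * x.1.1 * y.1.2)) := by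
      rw [isConj_iff]
      refine ⟨y.1.2⁻¹ * x.1.1⁻¹, ?_⟩
      group
    exact x.2.trans h1⟩

lemma ext' {x y : Cls c} (h1 : x.1.1 = y.1.1) (h2 : x.1.2 = y.1.2) : x = y :=
  Subtype.ext (Prod.ext h1 h2)

lemma quandle : IsQuandle (opn (c := c)) where
  idem x := by
    apply ext' <;> simp only [opn] <;> group
  bij y := by
    constructor
    · intro x x' h
      have h1 : y.1.2⁻¹ * x.1.2 * y.1.1 = y.1.2⁻¹ * x'.1.2 * y.1.1 :=
        congrArg (fun z : Cls c => z.1.1) h
      have h2 : y.1.1⁻¹ * x.1.1 * y.1.2 = y.1.1⁻¹ * x'.1.1 * y.1.2 :=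
        congrArg (fun z : Cls c => z.1.2) h
      apply ext'
      · simpa using h2
      · simpa using h1
    · intro x
      refine ⟨⟨(y.1.1 * x.1.2 * y.1.2⁻¹, y.1.2 * x.1.1 * y.1.1⁻¹), ?_⟩, ?_⟩
      · refine x.2.trans (isConj_iff.2 ⟨y.1.1 * x.1.1⁻¹, ?_⟩)
        group
      · apply ext' <;> simp only [opn] <;> group
  dist x y z := by
    apply ext' <;> simp only [opn] <;> group

/-- conjugation by the element `(g, h)` -/
def cj (g : K × K) (x : Cls c) : Cls c :=
  ⟨(g.1 * x.1.1 * g.2⁻¹, g.2 * x.1.2 * g.1⁻¹), by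
    refine x.2.trans (isConj_iff.2 ⟨g.1, ?_⟩)
    group⟩

lemma cj_mul (g h : K × K) (x : Cls c) : cj (g * h) x = cj g (cj h x) := by
  apply ext' <;> simp only [cj, Prod.fst_mul, Prod.snd_mul] <;> group

lemma cj_one (x : Cls c) : cj 1 x = x := by
  apply ext' <;> simp [cj]

/-- conjugation by `(g, h)` as a permutation -/
def cjE : (K × K) →* Equiv.Perm (Cls c) where
  toFun g := ⟨cj g, cj g⁻¹, fun x => by rw [← cj_mul, inv_mul_cancel, cj_one],
    fun x => by rw [← cj_mul, mul_inv_cancel, cj_one]⟩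
  map_one' := by ext x : 1; exact cj_one x
  map_mul' g h := by ext x : 1; exact cj_mul g h x

/-- the group generated by the translations -/
def TT (c : K) : Subgroup (Equiv.Perm (Cls c)) :=
  Subgroup.closure {s : Equiv.Perm (Cls c) | ∃ z, ∀ w, s w = opn w z}

lemma tr_mem (z : Cls c) (s : Equiv.Perm (Cls c)) (h : ∀ w, s w = opn w z) : s ∈ TT c :=
  Subgroup.subset_closure ⟨z, h⟩

/-- the conjugations by the quotients of two elements -/
lemma quot_mem (y z : Cls c) :
    cjE (y.1.1 * z.1.1⁻¹, y.1.2 * z.1.2⁻¹) ∈ TT c := by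
  let sy : Equiv.Perm (Cls c) := Equiv.ofBijective _ (quandle.bij y)
  let sz : Equiv.Perm (Cls c) := Equiv.ofBijective _ (quandle.bij z)
  have hy : sy ∈ TT c := tr_mem y sy fun w => rfl
  have hz : sz ∈ TT c := tr_mem z sz fun w => rfl
  have h : cjE (y.1.1 * z.1.1⁻¹, y.1.2 * z.1.2⁻¹) = sy⁻¹ * sz := by
    rw [eq_inv_mul_iff_mul_eq]
    ext w : 1
    change opn (cj _ w) y = opn w z
    apply ext' <;> simp only [opn, cj] <;> group
  rw [h]
  exact mul_mem (inv_mem hy) hz

lemma all_mem (hK : commutator K = ⊤) (g : K × K) : cjE g ∈ TT c := by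
  let P : Subgroup (K × K) := (TT c).comap cjE
  have h0 : ∀ g h : K, (g, h⁻¹ * g⁻¹ * h) ∈ P := by
    intro g h
    have h1 := quot_mem (c := c) ⟨(g * h, (g * h)⁻¹ * c), by
      rw [mul_inv_cancel_left]⟩ ⟨(h, h⁻¹ * c), by rw [mul_inv_cancel_left]⟩
    have h2 : ((g * h * h⁻¹, (g * h)⁻¹ * c * (h⁻¹ * c)⁻¹) : K × K) = (g, h⁻¹ * g⁻¹ * h) := by
      apply Prod.ext <;> simp only <;> group
    have h3 : ((g * h * h⁻¹, (g * h)⁻¹ * c * (h⁻¹ * c)⁻¹) : K × K) ∈ P := h1
    rwa [h2] at h3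
  have h1 : ∀ g : K, (g, g⁻¹) ∈ P := by
    intro g
    have := h0 g 1
    simpa using this
  have h2 : ∀ g : K, (1, g) ∈ P := by
    intro g
    have h3 : commutator K ≤ P.comap (MonoidHom.inr K K) := by
      rw [commutator_eq_closure, Subgroup.closure_le]
      rintro _ ⟨a, b, rfl⟩
      change ((1 : K), ⁅a, b⁆) ∈ P
      have h4 := mul_mem (inv_mem (h1 a)) (h0 a b⁻¹)
      have h5 : ((a, a⁻¹) : K × K)⁻¹ * (a, b⁻¹⁻¹ * a⁻¹ * b⁻¹) = (1, ⁅a, b⁆) := by
        apply Prod.ext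
        · simp
        · simp only [commutatorElement_def, Prod.snd_mul, Prod.snd_inv]
          group
      rwa [h5] at h4
    have h6 : g ∈ commutator K := by rw [hK]; trivial
    exact h3 h6
  have h7 := mul_mem (h1 g.1) (h2 (g.1 * g.2))
  have h8 : ((g.1, g.1⁻¹) : K × K) * (1, g.1 * g.2) = g := by
    apply Prod.ext <;> simp
  rw [h8] at h7
  exact h7

lemma connected (hK : commutator K = ⊤) : IsConnected (opn (c := c)) := by
  intro x y
  have h1 : IsConj (x.1.1 * x.1.2) (y.1.1 * y.1.2) := x.2.symm.trans y.2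
  obtain ⟨a, ha⟩ := isConj_iff.1 h1
  refine ⟨cjE (a, y.1.1⁻¹ * a * x.1.1), all_mem hK _, ?_⟩
  change cj _ x = y
  apply ext'
  · simp only [cj]
    group
  · simp only [cj]
    have h2 : y.1.2 = y.1.1⁻¹ * (a * (x.1.1 * x.1.2) * a⁻¹) := by
      rw [ha]
      group
    rw [h2]
    group

lemma not_involutory {u : K} (hu : c * u ≠ u * c) : ¬ IsInvolutory (opn (c := c)) := by
  intro h
  have h1 := h ⟨(u, u⁻¹ * c), by rw [mul_inv_cancel_left]⟩ ⟨(1, c), by rw [one_mul]⟩
  have h2 : c⁻¹ * (1⁻¹ * u * c) * 1 = u := congrArg (fun z : Cls c => z.1.1) h1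
  apply hu
  rw [inv_one, one_mul, mul_one, inv_mul_eq_iff_eq_mul] at h2
  exact h2.symm

/-- the good involution `x ↦ z x⁻¹` for a central element `z` of order at most two -/
def rh (hc : IsConj c c⁻¹) (z : K) (hz : ∀ g, z * g = g * z) (hz2 : z * z = 1) (x : Cls c) :
    Cls c :=
  ⟨(z * x.1.2⁻¹, z * x.1.1⁻¹), by
    have h1 : z * x.1.2⁻¹ * (z * x.1.1⁻¹) = (x.1.1 * x.1.2)⁻¹ := by
      rw [hz x.1.2⁻¹, mul_assoc, ← mul_assoc z z, hz2, one_mul, mul_inv_rev]
    rw [h1]
    obtain ⟨a, ha⟩ := isConj_iff.1 x.2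
    refine hc.trans (isConj_iff.2 ⟨a, ?_⟩)
    rw [← ha]
    group⟩

lemma good (hc : IsConj c c⁻¹) (z : K) (hz : ∀ g, z * g = g * z) (hz2 : z * z = 1) :
    IsGoodInvolution (opn (c := c)) (rh hc z hz hz2) where
  invol x := by
    have hzi : z⁻¹ = z := inv_eq_of_mul_eq_one_left hz2
    apply ext'
    · change z * (z * x.1.1⁻¹)⁻¹ = x.1.1
      rw [mul_inv_rev, inv_inv, hzi, ← mul_assoc, hz, mul_assoc, hz2, mul_one]
    · change z * (z * x.1.2⁻¹)⁻¹ = x.1.2
      rw [mul_inv_rev, inv_inv, hzi, ← mul_assoc, hz, mul_assoc, hz2, mul_one]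
  equivariant x y := by
    apply ext'
    · change z * (y.1.1⁻¹ * x.1.1 * y.1.2)⁻¹ = y.1.2⁻¹ * (z * x.1.1⁻¹) * y.1.1
      rw [← mul_assoc y.1.2⁻¹, ← hz y.1.2⁻¹]
      group
    · change z * (y.1.2⁻¹ * x.1.2 * y.1.1)⁻¹ = y.1.1⁻¹ * (z * x.1.2⁻¹) * y.1.2
      rw [← mul_assoc y.1.1⁻¹, ← hz y.1.1⁻¹]
      group
  inverse x y := by
    have hzi : z⁻¹ = z := inv_eq_of_mul_eq_one_left hz2
    have key : ∀ a b g : K, a⁻¹ * ((z * a⁻¹)⁻¹ * g * (z * b⁻¹)) * b = g := by
      intro a b g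
      rw [mul_inv_rev, inv_inv, hzi]
      have h1 : a⁻¹ * (a * z * g * (z * b⁻¹)) * b = z * g * z := by group
      rw [h1, mul_assoc, ← hz g, ← mul_assoc, hz2, one_mul]
    apply ext'
    · exact key y.1.2 y.1.1 x.1.1
    · exact key y.1.1 y.1.2 x.1.2

end general

section SL

/-- The group `SL (2, 5)`. -/
abbrev K5 : Type := Matrix.SpecialLinearGroup (Fin 2) (ZMod 5)

/-- upper elementary matrices -/
def eU (t : ZMod 5) : K5 := ⟨!![1, t; 0, 1], by simp [Matrix.det_fin_two]⟩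

/-- lower elementary matrices -/
def eL (t : ZMod 5) : K5 := ⟨!![1, 0; t, 1], by simp [Matrix.det_fin_two]⟩

/-- a diagonal matrix of order four -/
def dd : K5 := ⟨!![2, 0; 0, 3], by decide⟩

/-- the Weyl element -/
def ww : K5 := ⟨!![0, 1; 4, 0], by decide⟩

/-- the central element -/
def zz : K5 := ⟨!![4, 0; 0, 4], by decide⟩

lemma ext2 {g h : K5} (h00 : g.1 0 0 = h.1 0 0) (h01 : g.1 0 1 = h.1 0 1)
    (h10 : g.1 1 0 = h.1 1 0) (h11 : g.1 1 1 = h.1 1 1) : g = h := by
  apply Subtype.ext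
  ext i j
  fin_cases i <;> fin_cases j <;> assumption

lemma mul_entries (g h : K5) (i j : Fin 2) :
    (g * h).1 i j = g.1 i 0 * h.1 0 j + g.1 i 1 * h.1 1 j := by
  rw [Matrix.SpecialLinearGroup.coe_mul, Matrix.mul_apply, Fin.sum_univ_two]

lemma comm_U (s : ZMod 5) : dd * eU s = eU (3 * s) * (eU s * dd) := by
  apply ext2 <;> simp only [mul_entries] <;> revert s <;> decide

lemma comm_L (s : ZMod 5) : dd * eL s = eL (3 * s) * (eL s * dd) := by
  apply ext2 <;> simp only [mul_entries] <;> revert s <;> decide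

lemma U_mem (t : ZMod 5) : eU t ∈ commutator K5 := by
  have h1 : eU t = ⁅dd, eU (2 * t)⁆ := by
    rw [commutatorElement_def, comm_U]
    have h2 : 3 * (2 * t) = t := by revert t; decide
    rw [h2]
    group
  rw [h1]
  exact Subgroup.commutator_mem_commutator (Subgroup.mem_top _) (Subgroup.mem_top _)

lemma comm_L' (s : ZMod 5) : ⁅dd, eL s⁆ = eL (3 * s) := by
  rw [commutatorElement_def, comm_L]
  group

lemma L_mem (t : ZMod 5) : eL t ∈ commutator K5 := by
  have h1 : eL t = ⁅dd, eL (2 * t)⁆ := by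
    rw [comm_L']
    have h2 : 3 * (2 * t) = t := by revert t; decide
    rw [h2]
  rw [h1]
  exact Subgroup.commutator_mem_commutator (Subgroup.mem_top _) (Subgroup.mem_top _)

lemma eU_e (t : ZMod 5) : (eU t).1 0 0 = 1 ∧ (eU t).1 0 1 = t ∧ (eU t).1 1 0 = 0 ∧
    (eU t).1 1 1 = 1 := ⟨rfl, rfl, rfl, rfl⟩

lemma eL_e (t : ZMod 5) : (eL t).1 0 0 = 1 ∧ (eL t).1 0 1 = 0 ∧ (eL t).1 1 0 = t ∧
    (eL t).1 1 1 = 1 := ⟨rfl, rfl, rfl, rfl⟩

lemma zz_e : zz.1 0 0 = 4 ∧ zz.1 0 1 = 0 ∧ zz.1 1 0 = 0 ∧ zz.1 1 1 = 4 := ⟨rfl, rfl, rfl, rfl⟩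

lemma decomp (a b c d : ZMod 5) (h : a * d - b * c = 1) (hc : c ≠ 0) :
    ∃ s t : ZMod 5, a = 1 + s * c ∧ b = t + s * (1 + c * t) ∧ d = 1 + c * t := by
  revert a b c d
  decide

lemma mem_of_ne {g : K5} (hg : g.1 1 0 ≠ 0) : g ∈ commutator K5 := by
  have hdet : g.1 0 0 * g.1 1 1 - g.1 0 1 * g.1 1 0 = 1 := by
    rw [← Matrix.det_fin_two, g.2]
  obtain ⟨s, t, h1, h2, h3⟩ := decomp _ _ _ _ hdet hg
  have h4 : g = eU s * (eL (g.1 1 0) * eU t) := by
    obtain ⟨s1, s2, s3, s4⟩ := eU_e s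
    obtain ⟨t1, t2, t3, t4⟩ := eU_e t
    obtain ⟨c1, c2, c3, c4⟩ := eL_e (g.1 1 0)
    apply ext2
    · simp only [mul_entries, s1, s2, t1, t3, c1, c2, c3, c4]
      rw [h1]; ring
    · simp only [mul_entries, s1, s2, t2, t4, c1, c2, c3, c4]
      rw [h2]; ring
    · simp only [mul_entries, s3, s4, t1, t3, c1, c2, c3, c4]
      ring
    · simp only [mul_entries, s3, s4, t2, t4, c1, c2, c3, c4]
      rw [h3]; ring
  rw [h4]
  exact mul_mem (U_mem s) (mul_mem (L_mem _) (U_mem t))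

lemma perfect : commutator K5 = ⊤ := by
  rw [eq_top_iff]
  intro g _
  by_cases hg : g.1 1 0 = 0
  · have h1 : (eL 1 * g).1 1 0 ≠ 0 := by
      intro h2
      have hdet : g.1 0 0 * g.1 1 1 - g.1 0 1 * g.1 1 0 = 1 := by
        rw [← Matrix.det_fin_two, g.2]
      obtain ⟨c1, c2, c3, c4⟩ := eL_e 1
      rw [mul_entries, c3, c4, hg, mul_zero, add_zero, one_mul] at h2
      rw [hg, h2, zero_mul, mul_zero, sub_zero] at hdet
      exact absurd hdet (by decide)
    have h2 := mul_mem (inv_mem (L_mem 1)) (mem_of_ne h1)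
    rwa [inv_mul_cancel_left] at h2
  · exact mem_of_ne hg

lemma conj_dd : IsConj dd dd⁻¹ := by
  rw [isConj_iff]
  refine ⟨ww, ?_⟩
  have h1 : ww * dd = dd⁻¹ * ww := by
    rw [eq_inv_mul_iff_mul_eq]
    apply ext2 <;> simp only [mul_entries] <;> decide
  rw [h1, mul_inv_cancel_right]

lemma zz_comm (g : K5) : zz * g = g * zz := by
  obtain ⟨c1, c2, c3, c4⟩ := zz_e
  apply ext2 <;> simp only [mul_entries, c1, c2, c3, c4] <;> ring

lemma zz_sq : zz * zz = 1 := by
  apply ext2 <;> simp only [mul_entries] <;> decide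

lemma zz_ne : zz ≠ 1 := by
  intro h
  have h1 : zz.1 0 0 = (1 : K5).1 0 0 := by rw [h]
  revert h1
  decide

lemma dd_comm : dd * eU 1 ≠ eU 1 * dd := by
  intro h
  have h1 : (dd * eU 1).1 0 1 = (eU 1 * dd).1 0 1 := by rw [h]
  simp only [mul_entries] at h1
  revert h1
  decide

end SL

/-- There is a finite connected quandle which is not involutory and has two different good
involutions. -/
theorem result : ∃ (R : Type) (op : R → R → R), Finite R ∧ IsQuandle op ∧ IsConnected op ∧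
    ¬ IsInvolutory op ∧ ∃ ρ₁ ρ₂ : R → R, ρ₁ ≠ ρ₂ ∧ IsGoodInvolution op ρ₁ ∧
      IsGoodInvolution op ρ₂ := by
  have hf : Finite K5 := Subtype.finite
  refine ⟨Cls dd, opn, Subtype.finite, quandle, connected perfect, not_involutory dd_comm,
    rh conj_dd 1 (fun g => by rw [one_mul, mul_one]) (one_mul 1),
    rh conj_dd zz zz_comm zz_sq, ?_, good _ _ _ _, good _ _ _ _⟩
  intro h
  have h0 : IsConj dd (((1, dd) : K5 × K5).1 * ((1, dd) : K5 × K5).2) := by
    change IsConj dd (1 * dd)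
    rw [one_mul]
  have h1 := congrFun h ⟨(1, dd), h0⟩
  have h2 : (1 : K5) * dd⁻¹ = zz * dd⁻¹ := congrArg (fun z : Cls dd => z.1.1) h1
  exact zz_ne (mul_right_cancel h2).symm

end Pool.Agent.Results.MP_f5f603_al.TwoGoodInvolutions
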